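import Pool.Agent.Helper43.Gx.Goals
import Pool.Agent.Helper18.Tw.Pen

/-! Packet X11: nine free points, pencil. -/

set_option autoImplicit false

namespace Pool.Agent.Helper43.Gx.PkX11

open Finset Pool.Agent.Lead.Sh
open Pool.Agent.Helper43.Gx
open Pool.Agent.Helper43.Ah (pat Good)
open Helper18.Cusp Helper18.Shgh Helper18.Slab Helper18.Flag Helper18.Tw

theorem hgt_anti {f : ℕ → ℕ} {w κ : ℕ} (h : Hgt f w κ) (b : ℕ) : f (b + 1) ≤ f b := by
  rcases Nat.lt_or_ge b w with hb | hb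
  · rw [h.wall b hb]
    exact h.le _
  · rcases Nat.eq_zero_or_pos (f (b + 1)) with h0 | h0
    · rw [h0]; exact Nat.zero_le _
    · exact (h.strict b hb h0).le

theorem hgt_antitone {f : ℕ → ℕ} {w κ : ℕ} (h : Hgt f w κ) : Antitone f :=
  antitone_nat_of_succ_le (hgt_anti h)

theorem hgt_good (h8 : GoalX8) {f : ℕ → ℕ} {w κ M : ℕ} (h : Hgt f w κ) {D : Finset (ℕ × ℕ)}
    (hD : ∀ x, x ∈ D ↔ x.1 < f x.2) (hM : 2 ≤ M) (hκ : 27 * M ^ 2 ≤ κ) (hw : 4 * M ^ 2 ≤ w) :
    Good M D := by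
  have hanti := hgt_antitone h
  have hex : ∃ b, f b = 0 := by
    refine ⟨w + 2 * κ, ?_⟩
    by_contra hcon
    have := h.top (b := w + 2 * κ) (Nat.pos_of_ne_zero hcon)
    omega
  classical
  obtain ⟨R, hR0, hRpos⟩ : ∃ R, f R = 0 ∧ ∀ b < R, 0 < f b :=
    ⟨Nat.find hex, Nat.find_spec hex, fun b hb => Nat.pos_of_ne_zero (Nat.find_min hex hb)⟩
  have hM2 : M * M = M ^ 2 := by ring
  have hMM : 2 * M ≤ M ^ 2 := by rw [← hM2]; exact Nat.mul_le_mul_right _ hM
  have hκpos : 0 < κ := by nlinarith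
  have hwR : w ≤ R := by
    by_contra hcon
    rw [h.wall R (by omega)] at hR0
    omega
  have hchoose : 2 * (M + 1).choose 2 = M ^ 2 + M := by
    have h1 := Nat.choose_two_right (M + 1)
    have h2 : 2 ∣ (M + 1) * (M + 1 - 1) := by
      rw [Nat.add_sub_cancel, mul_comm]
      exact (Nat.even_mul_succ_self M).two_dvd
    rw [h1, Nat.mul_div_cancel' h2, Nat.add_sub_cancel]
    ring
  have hwall : ∀ y < w, f y = κ := h.wall
  refine h8 M 0 R f D (by omega) ?_ ?_ ?_ (fun y _ => hgt_anti h y) ?_ ?_ ?_ ?_ ?_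
  · intro x
    rw [hD]
    refine ⟨fun hx => ⟨?_, hx⟩, fun hx => hx.2⟩
    by_contra hcon
    have := hanti (not_lt.1 hcon)
    omega
  · nlinarith
  · omega
  · intro y hy
    rcases Nat.lt_or_ge y w with hyw | hyw
    · rw [hwall y hyw]
      rcases (h.le (y + 1)).lt_or_eq with h1 | h1
      · exact Or.inl h1
      · right
        rw [h1]
        nlinarith
    · exact Or.inl (h.strict y hyw (hRpos _ hy))
  · intro y hy
    rw [hwall y (by omega)]
    omega
  · intro y hy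
    rw [hwall y (by omega)]
    omega
  · intro y hy
    rw [hwall y (by omega), hwall (y + 1) (by omega), hwall (y + 2) (by omega)]
    omega
  · have hcard : w * κ ≤ D.card := by
      have hsub : (range κ) ×ˢ (range w) ⊆ D := by
        intro x hx
        rw [mem_product, mem_range, mem_range] at hx
        rw [hD, hwall x.2 hx.2]
        exact hx.1
      have := card_le_card hsub
      rw [card_product, card_range, card_range, mul_comm] at this
      exact this
    rw [hwall 0 (by omega)]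
    refine le_trans ?_ hcard
    have h1 : 4 * M ^ 2 * κ ≤ w * κ := Nat.mul_le_mul_right _ hw
    refine le_trans ?_ h1
    have h2 : M * (3 * M + 1) = 3 * M ^ 2 + M := by ring
    rw [h2]
    have h3 : 2 * (M * κ) ≤ M ^ 2 * κ := by
      calc 2 * (M * κ) = (2 * M) * κ := by ring
        _ ≤ M ^ 2 * κ := Nat.mul_le_mul_right _ hMM
    have h4 : 27 * M ^ 2 * 4 ≤ κ * M ^ 2 := by
      refine Nat.mul_le_mul hκ ?_
      omega
    have h5 : (3 * M ^ 2 + M) * (κ + 1) = 3 * (M ^ 2 * κ) + M * κ + (3 * M ^ 2 + M) := by ring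
    have h6 : 4 * M ^ 2 * κ = 4 * (M ^ 2 * κ) := by ring
    rw [h5, h6]
    have h7 : κ * M ^ 2 = M ^ 2 * κ := mul_comm _ _
    omega

theorem goalX11 (h8 : GoalX8) : GoalX11 := by
  intro s m d hm hs hd h9 hlt hm8 hprod
  have hR : Red d m := ⟨fun i j hij _ => hm hij, hd, hlt⟩
  have hkap : kap d m = 3 * d - ∑ i ∈ Finset.range 9, m i := rfl
  have hkpos := hR.kap_pos
  obtain ⟨κ, hκdef⟩ : ∃ κ, kap d m = κ := ⟨_, rfl⟩
  rw [hκdef] at hkap hkpos
  rw [← hkap] at hprod
  set M := m 9 with hMdef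
  obtain ⟨k, hk, hk1, hk2⟩ : ∃ k, 2 ≤ k ∧ 27 * M ^ 2 ≤ k * κ ∧ 4 * M ^ 2 ≤ m 8 / k := by
    rcases Nat.lt_or_ge (2 * κ) (27 * M ^ 2) with h | h
    · refine ⟨(27 * M ^ 2 - 1) / κ + 1, ?_, ?_, ?_⟩
      · have : 1 ≤ (27 * M ^ 2 - 1) / κ := by
          rw [Nat.one_le_div_iff hkpos]
          omega
        omega
      · have := Nat.lt_div_mul_add (a := 27 * M ^ 2 - 1) hkpos
        rw [add_mul, one_mul]
        omega
      · set k := (27 * M ^ 2 - 1) / κ + 1 with hkdef
        rw [Nat.le_div_iff_mul_le (by rw [hkdef]; exact Nat.succ_pos _)]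
        have h1 := Nat.div_mul_le_self (27 * M ^ 2 - 1) κ
        have h2 : k * κ ≤ 41 * M ^ 2 := by
          rw [hkdef, add_mul, one_mul]
          omega
        have h3 : 4 * M ^ 2 * k * κ ≤ m 8 * κ := by
          calc 4 * M ^ 2 * k * κ = 4 * M ^ 2 * (k * κ) := by ring
            _ ≤ 4 * M ^ 2 * (41 * M ^ 2) := Nat.mul_le_mul_left _ h2
            _ = 164 * M ^ 4 := by ring
            _ ≤ κ * m 8 := hprod
            _ = m 8 * κ := mul_comm _ _
        exact Nat.le_of_mul_le_mul_right h3 hkpos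
    · refine ⟨2, le_rfl, h, ?_⟩
      rw [Nat.le_div_iff_mul_le (by omega)]
      omega
  obtain ⟨z, F, hPD, -⟩ := Pool.Agent.Helper43.Nod.hex k (by omega)
  have hP := hPD.pencil hk
  apply slab_finish hm hs (by omega) hP hR
  have hgt := rk_hgt hP hk hR
  rw [hκdef] at hgt
  have hG := hgt_good h8 hgt (mem_DR' hP (by omega) hR) h9 hk1 hk2
  exact hG (Finset.Ico 9 s) m fun i hi => hm (Finset.mem_Ico.1 hi).1

end Pool.Agent.Helper43.Gx.PkX11
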